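import Pool.Agent.TwoCh.Cube

set_option autoImplicit false

/-!
# MP_615643_co: chains of pairs of label sets with a free involution

A cell is a pair `(σ, ρ)` of sets of labels.  `dl` is the coboundary modulo two.  `no_free` is the
Borsuk-Ulam type lemma: there is no family of elements `w (σ, ρ)` which is compatible with
the boundary, with an involution `T` of the cells and with the antiautomorphism `tau`, when `T` has
no fixed cell on the support of `w`.
-/

namespace Pool.Agent.Nor

open Finset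

/-- cells: pairs of sets of labels -/
abbrev Cell (N M : ℕ) := Finset (Fin N) × Finset (Fin M)

/-- one of the two sets is empty -/
def Em {N M : ℕ} (C : Cell N M) : Prop := C.1 = ∅ ∨ C.2 = ∅

/-- the coboundary modulo two -/
def dl {N M : ℕ} (θ : Cell N M → ZMod 2) (C : Cell N M) : ZMod 2 :=
  ∑ a ∈ C.1, θ (C.1.erase a, C.2) + ∑ d ∈ C.2, θ (C.1, C.2.erase d)

theorem sum_pairs_zero {α : Type*} [DecidableEq α] (s : Finset α) (f : α → α → ZMod 2)
    (h1 : ∀ i j, f i j = f j i) : ∑ i ∈ s, ∑ j ∈ s.erase i, f i j = 0 := by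
  have h : ∀ i ∈ s, ∑ j ∈ s.erase i, f i j = ∑ j ∈ s, if i ≠ j then f i j else 0 := by
    intro i hi
    rw [← Finset.sum_filter]
    refine Finset.sum_congr ?_ fun _ _ => rfl
    ext j
    simp only [mem_erase, mem_filter]
    constructor
    · rintro ⟨a, b⟩; exact ⟨b, Ne.symm a⟩
    · rintro ⟨a, b⟩; exact ⟨Ne.symm b, a⟩
  rw [Finset.sum_congr rfl h, ← Finset.sum_product']
  refine Finset.sum_involution (fun p _ => (p.2, p.1)) ?_ ?_ ?_ ?_
  · rintro ⟨i, j⟩ _
    simp only [ne_eq]
    by_cases hij : i = j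
    · simp [hij]
    · rw [if_pos hij, if_pos (Ne.symm hij), h1 j i]
      exact CharTwo.add_self_eq_zero _
  · rintro ⟨i, j⟩ _ hij h
    simp only [Prod.mk.injEq] at h
    apply hij
    simp [h.1]
  · rintro ⟨i, j⟩ hij
    simp only [mem_product] at hij ⊢
    exact ⟨hij.2, hij.1⟩
  · rintro ⟨i, j⟩ _
    rfl

theorem dl_dl {N M : ℕ} (θ : Cell N M → ZMod 2) (C : Cell N M) : dl (dl θ) C = 0 := by
  unfold dl
  simp only [Finset.sum_add_distrib]
  have h1 : ∑ a ∈ C.1, ∑ b ∈ C.1.erase a, θ ((C.1.erase a).erase b, C.2) = 0 :=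
    sum_pairs_zero C.1 (fun a b => θ ((C.1.erase a).erase b, C.2))
      (fun a b => by rw [Finset.erase_right_comm])
  have h2 : ∑ a ∈ C.2, ∑ b ∈ C.2.erase a, θ (C.1, (C.2.erase a).erase b) = 0 :=
    sum_pairs_zero C.2 (fun a b => θ (C.1, (C.2.erase a).erase b))
      (fun a b => by rw [Finset.erase_right_comm])
  rw [h1, h2, Finset.sum_comm (s := C.2), zero_add, add_zero]
  exact CharTwo.add_self_eq_zero _

theorem dl_add {N M : ℕ} (θ θ' : Cell N M → ZMod 2) (C : Cell N M) :
    dl (fun C => θ C + θ' C) C = dl θ C + dl θ' C := by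
  unfold dl
  simp only [Finset.sum_add_distrib]
  abel

theorem dl_Em {N M : ℕ} (θ : Cell N M → ZMod 2) (h : ∀ C, Em C → θ C = 0) (C : Cell N M)
    (hC : Em C) : dl θ C = 0 := by
  unfold dl
  rcases hC with hC | hC
  · rw [hC, Finset.sum_empty, zero_add]
    exact sum_eq_zero fun d _ => h _ (Or.inl rfl)
  · rw [hC, Finset.sum_empty, add_zero]
    exact sum_eq_zero fun d _ => h _ (Or.inr rfl)

/-- values of the coboundary depend only on the faces -/
theorem dl_congr {N M : ℕ} {θ θ' : Cell N M → ZMod 2} (C : Cell N M)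
    (h1 : ∀ a ∈ C.1, θ (C.1.erase a, C.2) = θ' (C.1.erase a, C.2))
    (h2 : ∀ d ∈ C.2, θ (C.1, C.2.erase d) = θ' (C.1, C.2.erase d)) : dl θ C = dl θ' C := by
  unfold dl
  rw [Finset.sum_congr rfl h1, Finset.sum_congr rfl h2]

section

variable {R : Type*} [Ring R] [Algebra (ZMod 2) R] {N M : ℕ}

omit [Algebra (ZMod 2) R] in
theorem sum_erase_insert (f : Finset (Fin N) → Finset (Fin N) → R) :
    ∑ σ : Finset (Fin N), ∑ a ∈ σ, f (σ.erase a) σ =
      ∑ σ : Finset (Fin N), ∑ a ∈ σᶜ, f σ (insert a σ) := by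
  have h1 : ∀ σ : Finset (Fin N), ∑ a ∈ σ, f (σ.erase a) σ =
      ∑ a, if a ∈ σ then f (σ.erase a) σ else 0 := by
    intro σ
    rw [← Finset.sum_filter]
    refine Finset.sum_congr ?_ fun _ _ => rfl
    ext a; simp
  have h2 : ∀ σ : Finset (Fin N), ∑ a ∈ σᶜ, f σ (insert a σ) =
      ∑ a, if a ∈ σ then 0 else f σ (insert a σ) := by
    intro σ
    rw [← Finset.sum_filter_add_sum_filter_not univ (fun a => a ∈ σ)
      (fun a => if a ∈ σ then 0 else f σ (insert a σ))]
    rw [Finset.sum_eq_zero (s := univ.filter fun a => a ∈ σ) (fun a ha => by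
      rw [if_pos (by simpa using ha)]), zero_add]
    refine Finset.sum_congr ?_ fun a ha => ?_
    · ext a; simp
    · rw [if_neg (by simpa using ha)]
  simp only [h1, h2]
  rw [Finset.sum_comm, Finset.sum_comm (s := (univ : Finset (Finset (Fin N))))]
  refine Finset.sum_congr rfl fun a _ => ?_
  rw [← Finset.sum_filter]
  have h3 : ∑ σ : Finset (Fin N), (if a ∈ σ then 0 else f σ (insert a σ)) =
      ∑ σ ∈ univ.filter (fun σ : Finset (Fin N) => a ∉ σ), f σ (insert a σ) := by
    rw [Finset.sum_filter]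
    refine Finset.sum_congr rfl fun σ _ => ?_
    by_cases h : a ∈ σ <;> simp [h]
  rw [h3]
  refine Finset.sum_nbij' (fun σ => σ.erase a) (fun σ => insert a σ) ?_ ?_ ?_ ?_ ?_
  · intro σ hσ
    simp
  · intro σ hσ
    simp
  · intro σ hσ
    simp only [mem_filter, mem_univ, true_and] at hσ
    exact Finset.insert_erase hσ
  · intro σ hσ
    simp only [mem_filter, mem_univ, true_and] at hσ
    exact Finset.erase_insert hσ
  · intro σ hσ
    simp only [mem_filter, mem_univ, true_and] at hσ
    rw [Finset.insert_erase hσ]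

theorem adj (θ : Cell N M → ZMod 2) (w : Cell N M → R) :
    ∑ C, dl θ C • w C = ∑ C : Cell N M, θ C •
      (∑ a ∈ C.1ᶜ, w (insert a C.1, C.2) + ∑ d ∈ C.2ᶜ, w (C.1, insert d C.2)) := by
  have h1 : ∑ C : Cell N M, (∑ a ∈ C.1, θ (C.1.erase a, C.2)) • w C =
      ∑ C : Cell N M, θ C • ∑ a ∈ C.1ᶜ, w (insert a C.1, C.2) := by
    rw [Fintype.sum_prod_type_right, Fintype.sum_prod_type_right]
    refine Finset.sum_congr rfl fun ρ _ => ?_
    simp only [Finset.sum_smul, Finset.smul_sum]
    exact sum_erase_insert fun σ σ' => θ (σ, ρ) • w (σ', ρ)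
  have h2 : ∑ C : Cell N M, (∑ d ∈ C.2, θ (C.1, C.2.erase d)) • w C =
      ∑ C : Cell N M, θ C • ∑ d ∈ C.2ᶜ, w (C.1, insert d C.2) := by
    rw [Fintype.sum_prod_type, Fintype.sum_prod_type]
    refine Finset.sum_congr rfl fun σ _ => ?_
    simp only [Finset.sum_smul, Finset.smul_sum]
    exact sum_erase_insert fun ρ ρ' => θ (σ, ρ) • w (σ, ρ')
  unfold dl
  simp only [add_smul, smul_add, Finset.sum_add_distrib]
  rw [h1, h2]

end

section free

variable {N M : ℕ}

/-- a linear order of the cells -/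
def lts (C C' : Cell N M) : Prop := Fintype.equivFin (Cell N M) C < Fintype.equivFin (Cell N M) C'

theorem lts_iff {C C' : Cell N M} (h : C ≠ C') : lts C C' ↔ ¬ lts C' C := by
  unfold lts
  rw [not_lt]
  constructor
  · exact le_of_lt
  · intro h1
    exact lt_of_le_of_ne h1 fun h2 => h ((Fintype.equivFin (Cell N M)).injective h2)

/-- both sets have one element -/
def Si (C : Cell N M) : Prop := C.1.card = 1 ∧ C.2.card = 1

open Classical in
/-- the cochains -/
noncomputable def th (T : Cell N M → Cell N M) (L : Cell N M → Prop) : ℕ → Cell N M → ZMod 2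
  | 0 => fun C => if L C ∧ Si C ∧ lts C (T C) then 1 else 0
  | k + 1 => fun C => if L C ∧ lts C (T C) then dl (th T L k) C else 0

open Classical in
theorem dl_Si (C : Cell N M) : dl (fun C => if Si C then 1 else 0) C = 0 := by
  have h1 : ∀ a ∈ C.1, (fun C : Cell N M => if Si C then (1 : ZMod 2) else 0) (C.1.erase a, C.2) =
      if C.1.card = 2 ∧ C.2.card = 1 then 1 else 0 := by
    intro a ha
    have h : Si ((C.1.erase a, C.2) : Cell N M) ↔ (C.1.card = 2 ∧ C.2.card = 1) := by
      unfold Si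
      simp only
      rw [Finset.card_erase_of_mem ha]
      have := Finset.card_pos.2 ⟨a, ha⟩
      constructor
      · rintro ⟨a, b⟩; exact ⟨by omega, b⟩
      · rintro ⟨a, b⟩; exact ⟨by omega, b⟩
    simp only [h]
  have h2 : ∀ a ∈ C.2, (fun C : Cell N M => if Si C then (1 : ZMod 2) else 0) (C.1, C.2.erase a) =
      if C.1.card = 1 ∧ C.2.card = 2 then 1 else 0 := by
    intro a ha
    have h : Si ((C.1, C.2.erase a) : Cell N M) ↔ (C.1.card = 1 ∧ C.2.card = 2) := by
      unfold Si
      simp only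
      rw [Finset.card_erase_of_mem ha]
      have := Finset.card_pos.2 ⟨a, ha⟩
      constructor
      · rintro ⟨a, b⟩; exact ⟨a, by omega⟩
      · rintro ⟨a, b⟩; exact ⟨a, by omega⟩
    simp only [h]
  unfold dl
  rw [Finset.sum_congr rfl h1, Finset.sum_congr rfl h2, Finset.sum_const, Finset.sum_const]
  have h3 : (2 : ℕ) • (1 : ZMod 2) = 0 := by decide
  have h4 : (C.1.card) • (if C.1.card = 2 ∧ C.2.card = 1 then (1 : ZMod 2) else 0) = 0 := by
    split_ifs with h
    · rw [h.1, h3]
    · exact smul_zero _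
  have h5 : (C.2.card) • (if C.1.card = 1 ∧ C.2.card = 2 then (1 : ZMod 2) else 0) = 0 := by
    split_ifs with h
    · rw [h.2, h3]
    · exact smul_zero _
  rw [h4, h5, add_zero]

variable (T : Cell N M → Cell N M) (L : Cell N M → Prop)

theorem th_not (k : ℕ) (C : Cell N M) (h : ¬ L C) : th T L k C = 0 := by
  cases k with
  | zero => exact if_neg fun h' => h h'.1
  | succ k => exact if_neg fun h' => h h'.1

variable (hT : ∀ C, T (T C) = C) (hTdl : ∀ θ C, dl θ (T C) = dl (fun C => θ (T C)) C)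
  (hTS : ∀ C, Si (T C) ↔ Si C) (hTL : ∀ C, L C → L (T C)) (hLE : ∀ C, L C → ¬ Em C)
  (hL1 : ∀ C, L C → ∀ a ∈ C.1, ¬ Em ((C.1.erase a, C.2) : Cell N M) → L (C.1.erase a, C.2))
  (hL2 : ∀ C, L C → ∀ d ∈ C.2, ¬ Em ((C.1, C.2.erase d) : Cell N M) → L (C.1, C.2.erase d))
  (hfree : ∀ C, L C → T C ≠ C)

include hT hTL hfree hTS in
open Classical in
theorem th_zero (C : Cell N M) (hC : L C) :
    th T L 0 C + th T L 0 (T C) = if Si C then 1 else 0 := by
  have h1 : L (T C) := hTL C hC
  have h2 := lts_iff (hfree C hC)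
  simp only [th, hC, h1, true_and, hT, hTS]
  by_cases hS : Si C
  · simp only [hS, true_and]
    rw [if_pos trivial]
    by_cases h : lts (T C) C
    · rw [if_pos h, if_neg (h2.1 h), zero_add]
    · rw [if_neg h, if_pos (by by_contra h3; exact h (h2.2 h3)), add_zero]
  · simp [hS]

include hT hTL hfree in
open Classical in
theorem th_succ (k : ℕ) (hinv : ∀ C, L C → dl (th T L k) (T C) = dl (th T L k) C)
    (C : Cell N M) (hC : L C) :
    th T L (k + 1) C + th T L (k + 1) (T C) = dl (th T L k) C := by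
  have h1 : L (T C) := hTL C hC
  have h2 := lts_iff (hfree C hC)
  have e1 : th T L (k + 1) C = if lts C (T C) then dl (th T L k) C else 0 := by
    simp [th, hC]
  have e2 : th T L (k + 1) (T C) = if lts (T C) C then dl (th T L k) C else 0 := by
    simp [th, h1, hT, hinv C hC]
  rw [e1, e2]
  by_cases h : lts (T C) C
  · rw [if_pos h, if_neg (h2.1 h), zero_add]
  · rw [if_neg h, if_pos (by by_contra h3; exact h (h2.2 h3)), add_zero]

include hL1 hL2 in
theorem dl_faces {θ θ' : Cell N M → ZMod 2} (C : Cell N M) (hC : L C)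
    (h1 : ∀ C, L C → θ C = θ' C) (h2 : ∀ C, Em C → θ C = θ' C) : dl θ C = dl θ' C := by
  refine dl_congr C (fun a ha => ?_) (fun d hd => ?_)
  · by_cases h : Em ((C.1.erase a, C.2) : Cell N M)
    · exact h2 _ h
    · exact h1 _ (hL1 C hC a ha h)
  · by_cases h : Em ((C.1, C.2.erase d) : Cell N M)
    · exact h2 _ h
    · exact h1 _ (hL2 C hC d hd h)

include hT hTdl hTL hTS hLE hL1 hL2 hfree in
theorem th_inv (k : ℕ) (C : Cell N M) (hC : L C) : dl (th T L k) (T C) = dl (th T L k) C := by
  classical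
  have hE : ∀ k (C : Cell N M), Em C → th T L k C = 0 := fun k C h =>
    th_not T L k C fun h' => hLE C h' h
  have hE' : ∀ k (C : Cell N M), Em C → th T L k (T C) = 0 := fun k C h =>
    th_not T L k _ fun h' => hLE C (by rw [← hT C]; exact hTL _ h') h
  have key : ∀ k, (∀ C, L C → dl (fun C => th T L k C + th T L k (T C)) C = 0) →
      ∀ C, L C → dl (th T L k) (T C) = dl (th T L k) C := by
    intro k hk C hC
    have h1 := hk C hC
    rw [dl_add, ← hTdl] at h1
    have h3 : dl (th T L k) (T C) + (dl (th T L k) C + dl (th T L k) (T C)) =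
        dl (th T L k) C := by
      rw [add_comm (dl (th T L k) C), ← add_assoc, CharTwo.add_self_eq_zero, zero_add]
    rw [h1, add_zero] at h3
    exact h3
  induction k generalizing C with
  | zero =>
    refine key 0 (fun C hC => ?_) C hC
    rw [← dl_Si C]
    refine dl_faces L hL1 hL2 C hC (fun C hC => th_zero T L hT hTS hTL hfree C hC) ?_
    intro C hC
    rw [hE 0 C hC, hE' 0 C hC, if_neg, add_zero]
    rintro ⟨h3, h4⟩
    rcases hC with hC | hC
    · rw [hC] at h3; simp at h3
    · rw [hC] at h4; simp at h4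
  | succ k ih =>
    refine key (k + 1) (fun C hC => ?_) C hC
    rw [← dl_dl (th T L k) C]
    refine dl_faces L hL1 hL2 C hC (fun C hC => th_succ T L hT hTL hfree k ih C hC) ?_
    intro C hC
    rw [hE _ C hC, hE' _ C hC, dl_Em _ (hE k) C hC, add_zero]

variable {R : Type*} [Ring R] [Algebra (ZMod 2) R] (D : R) (tau : R →+ R) (w : Cell N M → R)

include hT hTdl hTL hTS hLE hL1 hL2 hfree in
/-- The lemma of Borsuk-Ulam type. -/
theorem no_free (hw : ∀ C, ¬ L C → w C = 0)
    (hbd : ∀ C : Cell N M, ¬ Em C →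
      ∑ a ∈ C.1ᶜ, w (insert a C.1, C.2) + ∑ d ∈ C.2ᶜ, w (C.1, insert d C.2) = D * w C + w C * D)
    (htau : ∀ C, tau (w C) = w (T C)) (hone : ∑ a, ∑ d, w ({a}, {d}) = 1)
    (n : ℕ) (S : AddSubgroup R) (hS : ∀ C, w C ∈ S)
    (Phi : ℕ → R →+ ZMod 2) (h1 : Phi 0 1 = 1)
    (hstep : ∀ k, ∀ r ∈ S, Phi (k + 1) (D * r + r * D) = Phi k (r + tau r))
    (hlast : ∀ r, Phi (n + 1) r = 0) : False := by
  classical
  have hE : ∀ k (C : Cell N M), Em C → th T L k C = 0 := fun k C h =>
    th_not T L k C fun h' => hLE C h' h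
  have hz : ∀ z : ZMod 2, z = 0 ∨ z = 1 := by decide
  let B : ℕ → R := fun k => ∑ C, th T L k C • w C
  have hBS : ∀ k, B k ∈ S := by
    intro k
    refine AddSubgroup.sum_mem _ fun C _ => ?_
    rcases hz (th T L k C) with h | h
    · rw [h, zero_smul]; exact S.zero_mem
    · rw [h, one_smul]; exact hS C
  have hsmul : ∀ (z : ZMod 2) (r : R), tau (z • r) = z • tau r := by
    intro z r
    rcases hz z with h | h
    · rw [h, zero_smul, zero_smul, map_zero]
    · rw [h, one_smul, one_smul]
  have htB : ∀ k, tau (B k) = ∑ C, th T L k (T C) • w C := by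
    intro k
    have : ∑ C, th T L k (T C) • w C = ∑ C, th T L k C • w (T C) := by
      refine Fintype.sum_bijective T ⟨?_, ?_⟩ _ _ fun C => by rw [hT]
      · intro a b hab
        rw [← hT a, ← hT b, hab]
      · intro b
        exact ⟨T b, hT b⟩
    rw [this, map_sum]
    refine Finset.sum_congr rfl fun C _ => ?_
    rw [hsmul, htau]
  have hstep' : ∀ k, D * B k + B k * D = B (k + 1) + tau (B (k + 1)) := by
    intro k
    have e1 : D * B k + B k * D = ∑ C, dl (th T L k) C • w C := by
      rw [adj, Finset.mul_sum, Finset.sum_mul, ← Finset.sum_add_distrib]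
      refine Finset.sum_congr rfl fun C _ => ?_
      by_cases hC : Em C
      · rw [hE k C hC]; simp
      · rw [hbd C hC, smul_add, mul_smul_comm, smul_mul_assoc]
    rw [e1, htB, ← Finset.sum_add_distrib]
    refine Finset.sum_congr rfl fun C _ => ?_
    by_cases hC : L C
    · rw [← add_smul, th_succ T L hT hTL hfree k
        (fun C hC => th_inv T L hT hTdl hTS hTL hLE hL1 hL2 hfree k C hC) C hC]
    · rw [hw C hC]; simp
  have hB0 : B 0 + tau (B 0) = 1 := by
    rw [htB, ← Finset.sum_add_distrib, ← hone, ← Finset.sum_product',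
      ← Finset.sum_filter_add_sum_filter_not univ (fun C : Cell N M => Si C)]
    have e1 : ∑ C ∈ univ.filter (fun C : Cell N M => ¬ Si C),
        (th T L 0 C • w C + th T L 0 (T C) • w C) = 0 := by
      refine Finset.sum_eq_zero fun C hC => ?_
      simp only [mem_filter, mem_univ, true_and] at hC
      by_cases hL : L C
      · rw [← add_smul, th_zero T L hT hTS hTL hfree C hL, if_neg hC, zero_smul]
      · rw [hw C hL]; simp
    rw [e1, add_zero]
    symm
    refine Finset.sum_nbij (fun p => (({p.1}, {p.2}) : Cell N M)) ?_ ?_ ?_ ?_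
    · intro p _
      simp [Si]
    · intro p _ q _ h
      simp only [Prod.mk.injEq, Finset.singleton_inj] at h
      exact Prod.ext h.1 h.2
    · intro C hC
      simp only [coe_filter, mem_univ, true_and, Set.mem_setOf_eq] at hC
      obtain ⟨a, ha⟩ := Finset.card_eq_one.1 hC.1
      obtain ⟨d, hd⟩ := Finset.card_eq_one.1 hC.2
      exact ⟨(a, d), by simp, Prod.ext ha.symm hd.symm⟩
    · intro p _
      by_cases hL : L ({p.1}, {p.2})
      · rw [← add_smul, th_zero T L hT hTS hTL hfree _ hL, if_pos (by simp [Si]), one_smul]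
      · rw [hw _ hL]; simp
  have h3 : ∀ k, Phi k (B k + tau (B k)) = 1 := by
    intro k
    induction k with
    | zero => rw [hB0, h1]
    | succ k ih => rw [← hstep' k, hstep k _ (hBS k), ih]
  have h4 := h3 (n + 1)
  rw [hlast] at h4
  exact zero_ne_one h4

end free

end Pool.Agent.Nor
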