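import Pool.Agent.TwoCh.Cube

set_option autoImplicit false

/-!
# MP_615643_co: words for two commuting systems of labels

`e` and `f` are two systems of orthogonal idempotents with sum one in a ring of characteristic
two, `D * D = 0`, and every `e a` commutes with every commutator of `f d` and `D`.  Then the words
of `e` commute with the words of `f`, and a product of words vanishes when it contains labels
`a`, `d` with `e a * f d = 0`.
-/

namespace Pool.Agent.Nor

open Finset Pool.Agent.TwoCh

/-- two commuting systems of labels -/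
structure Sys {R : Type*} [Ring R] {N M : ℕ} (D : R) (e : Fin N → R) (f : Fin M → R) : Prop where
  h2 : ∀ r : R, r + r = 0
  hD : D * D = 0
  he : ∑ a, e a = 1
  hf : ∑ d, f d = 1
  ee : ∀ a b, a ≠ b → e a * e b = 0
  ff : ∀ a b, a ≠ b → f a * f b = 0
  eI : ∀ a, e a * e a = e a
  fI : ∀ a, f a * f a = f a
  ef : ∀ a d, e a * f d = f d * e a
  edge : ∀ a d, e a * f d * D + e a * D * f d + f d * D * e a + D * e a * f d = 0

section

variable {R : Type*} [Ring R] {N M : ℕ} {D : R} {e : Fin N → R} {f : Fin M → R}

theorem Sys.symm (S : Sys D e f) : Sys D f e where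
  h2 := S.h2
  hD := S.hD
  he := S.hf
  hf := S.he
  ee := S.ff
  ff := S.ee
  eI := S.fI
  fI := S.eI
  ef := fun a d => (S.ef d a).symm
  edge := fun a d => by
    have := S.edge d a
    rw [← S.ef d a, mul_assoc D, ← S.ef d a, ← mul_assoc D]
    rw [← this]; abel

theorem ne_add (S : Sys D e f) {x y : R} (h : x + y = 0) : x = y := by
  have := S.h2 y
  calc x = x + (y + y) := by rw [this, add_zero]
    _ = (x + y) + y := by abel
    _ = y := by rw [h, zero_add]

/-- a letter annihilates the words without it -/
theorem e_om (S : Sys D e f) (a : Fin N) (σ : Finset (Fin N)) (h : a ∉ σ) :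
    e a * om D e σ = 0 := by
  rw [om_eq, Finset.mul_sum]
  refine sum_eq_zero fun b hb => ?_
  rw [← mul_assoc, S.ee a b (fun h' => h (h' ▸ hb)), zero_mul]

theorem e_om_comm (S : Sys D e f) (a : Fin N) (ρ : Finset (Fin M)) :
    e a * om D f ρ = om D f ρ * e a := by
  induction hc : ρ.card using Nat.strong_induction_on generalizing ρ with
  | _ c ih =>
    refine ne_add S ?_
    rw [om_eq, Finset.mul_sum, Finset.sum_mul, ← Finset.sum_add_distrib]
    refine sum_eq_zero fun d hd => ?_
    unfold gg
    have h1 := ih (ρ.erase d).card (by rw [← hc]; exact Finset.card_erase_lt_of_mem hd)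
      (ρ.erase d) rfl
    have h3 := e_om S.symm d (ρ.erase d) (Finset.notMem_erase d ρ)
    have h4 : (e a * f d * D + f d * D * e a) * om D f (ρ.erase d) = 0 := by
      have h5 : e a * f d * D + f d * D * e a = e a * D * f d + D * e a * f d := by
        refine ne_add S ?_
        rw [← S.edge a d]; abel
      rw [h5, add_mul, mul_assoc (e a * D), h3, mul_assoc (D * e a), h3, mul_zero, mul_zero,
        add_zero]
    have h6 : ∀ z : R, e a * z = z * e a →
        e a * (f d * (z + D * om D f (ρ.erase d))) + f d * (z + D * om D f (ρ.erase d)) * e a =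
        (e a * f d * D + f d * D * e a) * om D f (ρ.erase d) := by
      intro z hz
      have h7 : e a * (f d * z) = f d * z * e a := by
        rw [← mul_assoc, S.ef, mul_assoc, hz, mul_assoc]
      rw [mul_add, mul_add, add_mul, h7]
      have h8 : f d * (D * om D f (ρ.erase d)) * e a = f d * D * e a * om D f (ρ.erase d) := by
        simp only [mul_assoc]
        rw [h1]
      rw [h8]
      have h9 := S.h2 (f d * z * e a)
      calc f d * z * e a + e a * (f d * (D * om D f (ρ.erase d))) +
            (f d * z * e a + f d * D * e a * om D f (ρ.erase d))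
          = (f d * z * e a + f d * z * e a) + (e a * (f d * (D * om D f (ρ.erase d))) +
            f d * D * e a * om D f (ρ.erase d)) := by abel
        _ = _ := by rw [h9, zero_add, add_mul]; simp only [mul_assoc]
    rw [h6 _ (by split_ifs <;> simp), h4]

/-- the words commute -/
theorem om_comm (S : Sys D e f) (σ : Finset (Fin N)) (ρ : Finset (Fin M)) :
    om D e σ * om D f ρ = om D f ρ * om D e σ := by
  induction hc : σ.card using Nat.strong_induction_on generalizing σ ρ with
  | _ c ih =>
    refine ne_add S ?_
    have h1 : om D e σ * om D f ρ + om D f ρ * om D e σ =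
        ∑ a ∈ σ, e a * ((D * om D f ρ + om D f ρ * D) * om D e (σ.erase a)) := by
      rw [om_eq D e σ, Finset.mul_sum, Finset.sum_mul, ← Finset.sum_add_distrib]
      refine sum_congr rfl fun a ha => ?_
      have h3 := ih (σ.erase a).card (by rw [← hc]; exact Finset.card_erase_lt_of_mem ha)
        (σ.erase a) ρ rfl
      unfold gg
      rw [← mul_assoc (om D f ρ), ← e_om_comm S]
      have h6 : ∀ z : R, om D f ρ * z = z * om D f ρ →
          e a * (z + D * om D e (σ.erase a)) * om D f ρ +
          e a * om D f ρ * (z + D * om D e (σ.erase a)) =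
          e a * ((D * om D f ρ + om D f ρ * D) * om D e (σ.erase a)) := by
        intro z hz
        rw [mul_add, add_mul, mul_add]
        have h7 : e a * om D f ρ * z = e a * z * om D f ρ := by
          rw [mul_assoc, hz, mul_assoc]
        rw [h7, add_mul, mul_add]
        have h9 := S.h2 (e a * z * om D f ρ)
        have h10 : e a * (D * om D e (σ.erase a)) * om D f ρ =
            e a * (D * om D f ρ * om D e (σ.erase a)) := by
          simp only [mul_assoc]
          rw [h3]
        rw [h10]
        calc e a * z * om D f ρ + e a * (D * om D f ρ * om D e (σ.erase a)) +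
              (e a * z * om D f ρ + e a * om D f ρ * (D * om D e (σ.erase a)))
            = (e a * z * om D f ρ + e a * z * om D f ρ) +
              (e a * (D * om D f ρ * om D e (σ.erase a)) +
                e a * om D f ρ * (D * om D e (σ.erase a))) := by abel
          _ = _ := by rw [h9, zero_add]; simp only [mul_assoc]
      exact h6 _ (by split_ifs <;> simp)
    rw [h1]
    have h4 : D * om D f ρ + om D f ρ * D =
        ∑ d ∈ ρᶜ, om D f (insert d ρ) + (if ρ = ∅ then 1 else 0) := by
      rw [om_ins S.h2 D S.hD f S.hf]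
      have h5 := S.h2 (if ρ = ∅ then (1 : R) else 0)
      calc D * om D f ρ + om D f ρ * D
          = D * om D f ρ + om D f ρ * D + ((if ρ = ∅ then (1 : R) else 0) +
            (if ρ = ∅ then (1 : R) else 0)) := by rw [h5, add_zero]
        _ = _ := by abel
    refine sum_eq_zero fun a ha => ?_
    rw [h4, ← mul_assoc, mul_add, Finset.mul_sum]
    have h5 : ∀ d ∈ ρᶜ, e a * om D f (insert d ρ) = om D f (insert d ρ) * e a :=
      fun d _ => e_om_comm S a _
    rw [Finset.sum_congr rfl h5, ← Finset.sum_mul]
    have h7 : e a * (if ρ = ∅ then (1 : R) else 0) = (if ρ = ∅ then (1 : R) else 0) * e a := by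
      split_ifs <;> simp
    rw [h7, ← add_mul, mul_assoc, e_om S a _ (Finset.notMem_erase a σ), mul_zero]

theorem e_om_mem (S : Sys D e f) (a : Fin N) (σ : Finset (Fin N)) (h : a ∈ σ) :
    e a * om D e σ = e a * gg D e (σ.erase a) := by
  rw [om_eq, Finset.mul_sum, Finset.sum_eq_single a]
  · rw [← mul_assoc, S.eI]
  · intro b _ hb
    rw [← mul_assoc, S.ee a b (Ne.symm hb), zero_mul]
  · intro h'; exact absurd h h'

/-- if all products with smaller sets vanish then only the letter `a` is left in front -/
theorem e_mul_eq (S : Sys D e f) (a : Fin N) (σ : Finset (Fin N)) (ha : a ∈ σ)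
    (Y : R) (h : ∀ b ∈ σ, b ≠ a → om D e (σ.erase b) * Y = 0) :
    e a * (om D e σ * Y) = om D e σ * Y := by
  have h1 : ∑ b, e b * (om D e σ * Y) = e a * (om D e σ * Y) := by
    refine Finset.sum_eq_single a (fun b _ hb => ?_) (fun h' => absurd (mem_univ a) h')
    rw [← mul_assoc]
    by_cases hbσ : b ∈ σ
    · rw [e_om_mem S b σ hbσ]
      unfold gg
      rw [if_neg (Finset.ne_empty_of_mem (Finset.mem_erase.2 ⟨Ne.symm hb, ha⟩)), zero_add,
        mul_assoc, mul_assoc, h b hbσ hb, mul_zero, mul_zero]
    · rw [e_om S b σ hbσ, zero_mul]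
  rw [← h1, ← Finset.sum_mul, S.he, one_mul]

/-- only bicliques occur -/
theorem bicl (S : Sys D e f) (a : Fin N) (d : Fin M) (had : e a * f d = 0)
    (σ : Finset (Fin N)) (ρ : Finset (Fin M)) (ha : a ∈ σ) (hd : d ∈ ρ) :
    om D e σ * om D f ρ = 0 := by
  induction hc : σ.card + ρ.card using Nat.strong_induction_on generalizing σ ρ with
  | _ c ih =>
    have h1 : e a * (om D e σ * om D f ρ) = om D e σ * om D f ρ := by
      refine e_mul_eq S a σ ha _ fun b hb hba => ?_
      have := Finset.card_erase_lt_of_mem hb
      exact ih _ (by omega) _ _ (Finset.mem_erase.2 ⟨Ne.symm hba, ha⟩) hd rfl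
    have h3 : f d * (om D f ρ * om D e σ) = om D f ρ * om D e σ := by
      refine e_mul_eq S.symm d ρ hd _ fun b hb hbd => ?_
      have := Finset.card_erase_lt_of_mem hb
      rw [← om_comm S]
      exact ih _ (by omega) _ _ ha (Finset.mem_erase.2 ⟨Ne.symm hbd, hd⟩) rfl
    rw [← h1, om_comm S, ← h3, ← mul_assoc, had, zero_mul]

end

section

variable {R : Type*} [Ring R] {N : ℕ} (D : R) (e : Fin N → R)

/-- the words with a letter `D` at the end -/
noncomputable def gl (σ : Finset (Fin N)) : R := (if σ = ∅ then 1 else 0) + om D e σ * D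

theorem sum_swap {α : Type*} [DecidableEq α] (s : Finset α) (f : α → α → R) :
    ∑ i ∈ s, ∑ j ∈ s.erase i, f i j = ∑ j ∈ s, ∑ i ∈ s.erase j, f i j := by
  refine Finset.sum_comm' fun x y => ?_
  simp only [mem_erase]
  constructor
  · rintro ⟨a, b, c⟩; exact ⟨⟨Ne.symm b, a⟩, c⟩
  · rintro ⟨⟨a, b⟩, c⟩; exact ⟨b, Ne.symm a, c⟩

theorem om_right (σ : Finset (Fin N)) :
    om D e σ = ∑ a ∈ σ, gl D e (σ.erase a) * e a := by
  induction hc : σ.card using Nat.strong_induction_on generalizing σ with
  | _ c ih =>
    have h1 : om D e σ = ∑ b ∈ σ, e b * (if σ.erase b = ∅ then 1 else 0) +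
        ∑ b ∈ σ, ∑ a ∈ σ.erase b, e b * D * gl D e ((σ.erase b).erase a) * e a := by
      rw [om_eq, ← Finset.sum_add_distrib]
      refine sum_congr rfl fun b hb => ?_
      unfold gg
      rw [mul_add, ih (σ.erase b).card (by rw [← hc]; exact Finset.card_erase_lt_of_mem hb) _ rfl,
        ← mul_assoc, Finset.mul_sum]
      simp only [mul_assoc]
    have h3 : ∑ a ∈ σ, gl D e (σ.erase a) * e a = ∑ a ∈ σ, (if σ.erase a = ∅ then 1 else 0) * e a +
        ∑ a ∈ σ, ∑ b ∈ σ.erase a, e b * D * gl D e ((σ.erase b).erase a) * e a := by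
      rw [← Finset.sum_add_distrib]
      refine sum_congr rfl fun a ha => ?_
      conv_lhs => unfold gl
      rw [add_mul]
      congr 1
      rw [om_eq, Finset.sum_mul, Finset.sum_mul]
      refine sum_congr rfl fun b hb => ?_
      rw [Finset.erase_right_comm (a := b) (b := a)]
      unfold gg gl
      rw [mul_assoc (e b) D]
      congr 1
      rw [mul_assoc (e b)]
      congr 1
      rw [add_mul, mul_add, mul_assoc D]
      congr 1
      split_ifs <;> simp
    rw [h1, h3, sum_swap]
    congr 1
    refine sum_congr rfl fun a _ => ?_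
    split_ifs <;> simp

theorem tau_om (tau : R →+ R) (tmul : ∀ x y, tau (x * y) = tau y * tau x) (tone : tau 1 = 1)
    (tD : tau D = D) (σ : Finset (Fin N)) : tau (om D e σ) = om D (fun a => tau (e a)) σ := by
  induction hc : σ.card using Nat.strong_induction_on generalizing σ with
  | _ c ih =>
    rw [om_right D (fun a => tau (e a)), om_eq, map_sum]
    refine sum_congr rfl fun a ha => ?_
    rw [tmul]
    unfold gg gl
    rw [map_add, tmul, tD, ih (σ.erase a).card
      (by rw [← hc]; exact Finset.card_erase_lt_of_mem ha) _ rfl]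
    congr 2
    split_ifs
    · exact tone
    · exact map_zero tau

end

end Pool.Agent.Nor
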