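import Pool.Agent.Nor.Free
import Pool.Agent.Nor.Words

set_option autoImplicit false

/-!
# MP_615643_co: the two labelling theorems
-/

namespace Pool.Agent.Nor

open Finset Pool.Agent.TwoCh

variable {n N M : ℕ}

theorem ed_mul_apply (r : V n → Fin N) (a : Fin N) (X : Mx n) (x y : V n) :
    (ed r a * X) x y = if r x = a then X x y else 0 := by
  unfold ed
  rw [Matrix.diagonal_mul]
  split_ifs <;> simp

theorem mul_ed_apply (r : V n → Fin N) (a : Fin N) (X : Mx n) (x y : V n) :
    (X * ed r a) x y = if r y = a then X x y else 0 := by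
  unfold ed
  rw [Matrix.mul_diagonal]
  split_ifs <;> simp

theorem dd_ne_zero {x y : V n} (h : dd n x y ≠ 0) : ∃ i, x i = false ∧ y = Function.update x i true := by
  unfold dd at h
  obtain ⟨i, -, hi⟩ := Finset.exists_ne_zero_of_sum_ne_zero h
  refine ⟨i, ?_⟩
  by_contra hc
  exact hi (if_neg hc)

theorem sys (r : V n → Fin N) (b : V n → Fin M)
    (h : ∀ x i, x i = false → r x = r (Function.update x i true) ∨
      b x = b (Function.update x i true)) : Sys (dd n) (ed r) (ed b) where
  h2 := two_zero
  hD := dd_dd n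
  he := ed_sum r
  hf := ed_sum b
  ee := by
    intro a b' hab
    ext x y
    rw [ed_mul_apply, Matrix.zero_apply]
    split_ifs with h1
    · unfold ed
      by_cases hxy : x = y
      · subst hxy
        rw [Matrix.diagonal_apply_eq, if_neg]
        rw [h1]; exact hab
      · exact Matrix.diagonal_apply_ne _ hxy
    · rfl
  ff := by
    intro a b' hab
    ext x y
    rw [ed_mul_apply, Matrix.zero_apply]
    split_ifs with h1
    · unfold ed
      by_cases hxy : x = y
      · subst hxy
        rw [Matrix.diagonal_apply_eq, if_neg]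
        rw [h1]; exact hab
      · exact Matrix.diagonal_apply_ne _ hxy
    · rfl
  eI := by
    intro a
    unfold ed
    rw [Matrix.diagonal_mul_diagonal]
    congr 1
    funext x
    split_ifs <;> simp
  fI := by
    intro a
    unfold ed
    rw [Matrix.diagonal_mul_diagonal]
    congr 1
    funext x
    split_ifs <;> simp
  ef := by
    intro a d
    unfold ed
    rw [Matrix.diagonal_mul_diagonal, Matrix.diagonal_mul_diagonal]
    congr 1
    funext x
    exact mul_comm _ _
  edge := by
    intro a d
    ext x y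
    have e1 : (ed r a * ed b d * dd n) x y = if r x = a then if b x = d then dd n x y else 0
        else 0 := by rw [mul_assoc, ed_mul_apply, ed_mul_apply]
    have e2 : (ed r a * dd n * ed b d) x y = if r x = a then if b y = d then dd n x y else 0
        else 0 := by rw [mul_assoc, ed_mul_apply, mul_ed_apply]
    have e3 : (ed b d * dd n * ed r a) x y = if b x = d then if r y = a then dd n x y else 0
        else 0 := by rw [mul_assoc, ed_mul_apply, mul_ed_apply]
    have e4 : (dd n * ed r a * ed b d) x y = if b y = d then if r y = a then dd n x y else 0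
        else 0 := by rw [mul_ed_apply, mul_ed_apply]
    rw [Matrix.add_apply, Matrix.add_apply, Matrix.add_apply, e1, e2, e3, e4, Matrix.zero_apply]
    by_cases hD : dd n x y = 0
    · simp [hD]
    · obtain ⟨i, hi, hy⟩ := dd_ne_zero hD
      have h1 := h x i hi
      rw [← hy] at h1
      rcases h1 with h1 | h1
      · rw [← h1]
        by_cases h3 : r x = a <;> by_cases h4 : b x = d <;> by_cases h5 : b y = d <;>
          simp [h3, h4, h5, CharTwo.add_self_eq_zero]
      · rw [← h1]
        by_cases h3 : r x = a <;> by_cases h4 : b x = d <;> by_cases h5 : r y = a <;>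
          simp [h3, h4, h5, CharTwo.add_self_eq_zero]

theorem tau_ed (r : V n → Fin N) (a : Fin N) : tau n (ed r a) = ed (fun x => r (an x)) a := by
  ext x y
  rw [tau_apply]
  unfold ed
  by_cases h : x = y
  · subst h
    rw [Matrix.diagonal_apply_eq, Matrix.diagonal_apply_eq]
  · rw [Matrix.diagonal_apply_ne _ h, Matrix.diagonal_apply_ne]
    intro h'
    apply h
    rw [← an_an x, ← an_an y, h']

theorem words_bd {D : Mx n} {e : Fin N → Mx n} {f : Fin M → Mx n} (S : Sys D e f) (C : Cell N M)
    (hC : ¬ Em C) :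
    ∑ a ∈ C.1ᶜ, om D e (insert a C.1) * om D f C.2 + ∑ d ∈ C.2ᶜ, om D e C.1 * om D f (insert d C.2)
      = D * (om D e C.1 * om D f C.2) + om D e C.1 * om D f C.2 * D := by
  rw [← Finset.sum_mul, ← Finset.mul_sum, om_ins S.h2 D S.hD e S.he, om_ins S.h2 D S.hD f S.hf,
    if_neg (fun h => hC (Or.inl h)), if_neg (fun h => hC (Or.inr h)), zero_add, zero_add, add_mul,
    mul_add]
  have h1 := S.h2 (om D e C.1 * D * om D f C.2)
  calc D * om D e C.1 * om D f C.2 + om D e C.1 * D * om D f C.2 +
        (om D e C.1 * (D * om D f C.2) + om D e C.1 * (om D f C.2 * D))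
      = (om D e C.1 * D * om D f C.2 + om D e C.1 * D * om D f C.2) +
        (D * (om D e C.1 * om D f C.2) + om D e C.1 * om D f C.2 * D) := by
        simp only [mul_assoc]; abel
    _ = _ := by rw [h1, zero_add]

theorem words_one {D : Mx n} {e : Fin N → Mx n} {f : Fin M → Mx n} (S : Sys D e f) :
    ∑ a, ∑ d, om D e {a} * om D f {d} = 1 := by
  simp only [om_singleton]
  rw [← Fintype.sum_mul_sum, S.he, S.hf, one_mul]

theorem words_Em {D : Mx n} {e : Fin N → Mx n} {f : Fin M → Mx n} (C : Cell N M) (hC : Em C) :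
    om D e C.1 * om D f C.2 = 0 := by
  rcases hC with h | h
  · rw [h, om_empty, zero_mul]
  · rw [h, om_empty, mul_zero]

theorem words_mem (r : V n → Fin N) (b : V n → Fin M) (C : Cell N M) :
    om (dd n) (ed r) C.1 * om (dd n) (ed b) C.2 ∈ (inc n).toAddSubgroup :=
  Subring.mul_mem _ (om_mem r _) (om_mem b _)

theorem ed_mul_zero (r : V n → Fin N) (b : V n → Fin M) (a : Fin N) (d : Fin M)
    (h : ∀ x, r x = a → b x ≠ d) : ed r a * ed b d = 0 := by
  ext x y
  rw [ed_mul_apply, Matrix.zero_apply]
  split_ifs with h1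
  · unfold ed
    by_cases hxy : x = y
    · subst hxy
      rw [Matrix.diagonal_apply_eq, if_neg (h x h1)]
    · exact Matrix.diagonal_apply_ne _ hxy
  · rfl

/-- If on every edge of the cube the labelling `g` is constant on this edge or on the antipodal
edge, then `g` has the same value at some vertex and its antipode. -/
theorem label_norine (g : V n → Fin N)
    (h : ∀ x i, x i = false → g x = g (Function.update x i true) ∨
      g (an x) = g (an (Function.update x i true))) : ∃ x, g x = g (an x) := by
  by_contra hcon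
  push Not at hcon
  have S := sys g (fun x => g (an x)) h
  refine no_free (N := N) (M := N) Prod.swap (fun C => ¬ Em C ∧ Disjoint C.1 C.2)
    (fun C => Prod.swap_swap C) ?_ ?_ ?_ (fun C h => h.1) ?_ ?_ ?_ (dd n) (tau n)
    (fun C => om (dd n) (ed g) C.1 * om (dd n) (ed fun x => g (an x)) C.2) ?_
    (fun C hC => words_bd S C hC) ?_ (words_one S) n (inc n).toAddSubgroup
    (fun C => words_mem _ _ C) (fun k => Phi n k) (Phi_one n)
    (fun k M hM => Phi_step k hM) (fun M => Phi_last n M)
  · intro θ C
    unfold dl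
    rw [add_comm]
    rfl
  · intro C
    unfold Si
    exact and_comm
  · rintro C ⟨h1, h3⟩
    refine ⟨fun h4 => h1 ?_, h3.symm⟩
    exact h4.symm
  · rintro C ⟨h1, h3⟩ a ha h4
    exact ⟨h4, h3.mono_left (Finset.erase_subset _ _)⟩
  · rintro C ⟨h1, h3⟩ a ha h4
    exact ⟨h4, h3.mono_right (Finset.erase_subset _ _)⟩
  · rintro C ⟨h1, h3⟩ h4
    have h5 : C.1 = C.2 := by
      have := congrArg Prod.snd h4
      exact this
    rw [h5, disjoint_self] at h3
    exact h1 (Or.inr h3)
  · intro C hC
    by_cases hE : Em C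
    · exact words_Em C hE
    · have h3 : ¬ Disjoint C.1 C.2 := fun h' => hC ⟨hE, h'⟩
      rw [Finset.not_disjoint_iff] at h3
      obtain ⟨a, ha, ha'⟩ := h3
      exact bicl S a a (ed_mul_zero _ _ a a fun x hx hx' => hcon x (hx.trans hx'.symm)) _ _ ha ha'
  · intro C
    have e1 : ∀ σ, tau n (om (dd n) (ed g) σ) = om (dd n) (ed fun x => g (an x)) σ := by
      intro σ
      rw [tau_om (dd n) (ed g) (tau n) tau_mul (tau_one n) (tau_dd n)]
      congr 1
      funext a
      exact tau_ed g a
    rw [tau_mul, e1, ← e1 C.2, tau_tau]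
    rfl

/-- the involution of the labels -/
noncomputable def inv (r : V n → Fin N) (a : Fin N) : Fin N :=
  open Classical in if h : ∃ x, r x = a then r (an h.choose) else a

theorem inv_eq (r : V n → Fin N) (h : ∀ x y, r x = r y → r (an x) = r (an y)) (x : V n) :
    inv r (r x) = r (an x) := by
  unfold inv
  have hx : ∃ y, r y = r x := ⟨x, rfl⟩
  rw [dif_pos hx]
  exact h _ _ hx.choose_spec

theorem inv_inv (r : V n → Fin N) (h : ∀ x y, r x = r y → r (an x) = r (an y)) (a : Fin N) :
    inv r (inv r a) = a := by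
  by_cases ha : ∃ x, r x = a
  · obtain ⟨x, rfl⟩ := ha
    rw [inv_eq r h, inv_eq r h, an_an]
  · have h1 : inv r a = a := by
      unfold inv
      rw [dif_neg ha]
    rw [h1, h1]

theorem inv_injective (r : V n → Fin N) (h : ∀ x y, r x = r y → r (an x) = r (an y)) :
    Function.Injective (inv r) := fun a b hab => by
  rw [← inv_inv r h a, hab, inv_inv r h b]

theorem eq_inv_iff (r : V n → Fin N) (h : ∀ x y, r x = r y → r (an x) = r (an y)) (x : V n)
    (a : Fin N) : r (an x) = a ↔ r x = inv r a := by
  rw [← inv_eq r h x]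
  constructor
  · intro h1; rw [← h1, inv_inv r h]
  · intro h1; rw [h1, inv_inv r h]

/-- words of the transported system -/
theorem om_image (D : Mx n) (e : Fin N → Mx n) (t : Fin N → Fin N) (ht : Function.Injective t)
    (σ : Finset (Fin N)) : om D (fun a => e (t a)) σ = om D e (σ.image t) := by
  induction hc : σ.card using Nat.strong_induction_on generalizing σ with
  | _ c ih =>
    rw [om_eq, om_eq D e, Finset.sum_image (fun a _ b _ hab => ht hab)]
    refine sum_congr rfl fun a ha => ?_
    rw [← Finset.image_erase ht]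
    unfold gg
    rw [ih (σ.erase a).card (by rw [← hc]; exact Finset.card_erase_lt_of_mem ha) _ rfl]
    simp only [Finset.image_eq_empty]

/-- If every edge is constant for one of two labellings and both labellings are compatible with
the antipodal map, then some vertex `x` and some vertex `y` have `r x = r y` and
`b y = b (an x)`. -/
theorem label_symm (r : V n → Fin N) (b : V n → Fin M)
    (h : ∀ x i, x i = false → r x = r (Function.update x i true) ∨
      b x = b (Function.update x i true))
    (hr : ∀ x y, r x = r y → r (an x) = r (an y)) (hb : ∀ x y, b x = b y → b (an x) = b (an y)) :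
    ∃ x y, r x = r y ∧ b y = b (an x) := by
  by_contra hcon
  push Not at hcon
  have S := sys r b h
  have i1 := inv_injective r hr
  have i2 := inv_injective b hb
  refine no_free (N := N) (M := M) (fun C => (C.1.image (inv r), C.2.image (inv b)))
    (fun C => ¬ Em C ∧ ∀ a ∈ C.1, ∀ d ∈ C.2, ∃ x, r x = a ∧ b x = d)
    ?_ ?_ ?_ ?_ (fun C h => h.1) ?_ ?_ ?_ (dd n) (tau n)
    (fun C => om (dd n) (ed r) C.1 * om (dd n) (ed b) C.2) ?_
    (fun C hC => words_bd S C hC) ?_ (words_one S) n (inc n).toAddSubgroup
    (fun C => words_mem _ _ C) (fun k => Phi n k) (Phi_one n)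
    (fun k M hM => Phi_step k hM) (fun M => Phi_last n M)
  · intro C
    have h1 : ∀ σ : Finset (Fin N), (σ.image (inv r)).image (inv r) = σ := by
      intro σ
      have h2 : inv r ∘ inv r = id := funext fun a => inv_inv r hr a
      rw [Finset.image_image, h2, Finset.image_id]
    have h3 : ∀ σ : Finset (Fin M), (σ.image (inv b)).image (inv b) = σ := by
      intro σ
      have h2 : inv b ∘ inv b = id := funext fun a => inv_inv b hb a
      rw [Finset.image_image, h2, Finset.image_id]
    exact Prod.ext (h1 _) (h3 _)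
  · intro θ C
    unfold dl
    simp only
    rw [Finset.sum_image (fun a _ b _ hab => i1 hab), Finset.sum_image (fun a _ b _ hab => i2 hab)]
    simp only [Finset.image_erase i1, Finset.image_erase i2]
  · intro C
    unfold Si
    simp only
    rw [Finset.card_image_of_injective _ i1, Finset.card_image_of_injective _ i2]
  · rintro C ⟨h1, h3⟩
    refine ⟨fun h4 => h1 ?_, ?_⟩
    · rcases h4 with h4 | h4
      · exact Or.inl (Finset.image_eq_empty.1 h4)
      · exact Or.inr (Finset.image_eq_empty.1 h4)
    · intro a ha d hd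
      rw [Finset.mem_image] at ha hd
      obtain ⟨a', ha', rfl⟩ := ha
      obtain ⟨d', hd', rfl⟩ := hd
      obtain ⟨x, rfl, rfl⟩ := h3 a' ha' d' hd'
      exact ⟨an x, (inv_eq r hr x).symm, (inv_eq b hb x).symm⟩
  · rintro C ⟨h1, h3⟩ a ha h4
    exact ⟨h4, fun a' ha' d hd => h3 a' (Finset.mem_of_mem_erase ha') d hd⟩
  · rintro C ⟨h1, h3⟩ a ha h4
    exact ⟨h4, fun a' ha' d hd => h3 a' ha' d (Finset.mem_of_mem_erase hd)⟩
  · rintro C ⟨h1, h3⟩ h4
    have h5 : C.1.Nonempty := Finset.nonempty_iff_ne_empty.2 fun h' => h1 (Or.inl h')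
    have h6 : C.2.Nonempty := Finset.nonempty_iff_ne_empty.2 fun h' => h1 (Or.inr h')
    obtain ⟨a, ha⟩ := h5
    obtain ⟨d, hd⟩ := h6
    obtain ⟨x, rfl, rfl⟩ := h3 a ha d hd
    have h7 : inv b (b x) ∈ C.2 := by
      have h8 : C.2.image (inv b) = C.2 := congrArg Prod.snd h4
      rw [← h8]
      exact Finset.mem_image_of_mem _ hd
    obtain ⟨y, hy, hy'⟩ := h3 (r x) ha _ h7
    exact hcon x y hy.symm (by rw [hy', inv_eq b hb])
  · intro C hC
    by_cases hE : Em C
    · exact words_Em C hE
    · have h3 : ¬ ∀ a ∈ C.1, ∀ d ∈ C.2, ∃ x, r x = a ∧ b x = d := fun h' => hC ⟨hE, h'⟩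
      push Not at h3
      obtain ⟨a, ha, d, hd, h4⟩ := h3
      exact bicl S a d (ed_mul_zero _ _ a d fun x hx => h4 x hx) _ _ ha hd
  · intro C
    have e1 : ∀ σ, tau n (om (dd n) (ed r) σ) = om (dd n) (ed r) (σ.image (inv r)) := by
      intro σ
      rw [tau_om (dd n) (ed r) (tau n) tau_mul (tau_one n) (tau_dd n),
        ← om_image (dd n) (ed r) (inv r) i1]
      congr 1
      funext a
      rw [tau_ed]
      unfold ed
      congr 1
      funext x
      simp only [eq_inv_iff r hr]
    have e2 : ∀ σ, tau n (om (dd n) (ed b) σ) = om (dd n) (ed b) (σ.image (inv b)) := by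
      intro σ
      rw [tau_om (dd n) (ed b) (tau n) tau_mul (tau_one n) (tau_dd n),
        ← om_image (dd n) (ed b) (inv b) i2]
      congr 1
      funext a
      rw [tau_ed]
      unfold ed
      congr 1
      funext x
      simp only [eq_inv_iff b hb]
    rw [tau_mul, e1, e2]
    exact (om_comm S _ _).symm

end Pool.Agent.Nor
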