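import Pool.Agent.Nor.Labels
import Pool.Agent.TwoCh.Main

set_option autoImplicit false

/-!
# MP_615643_co: Norine's conjecture and centrally symmetric colourings
-/

namespace Pool.Agent.Nor

open Finset Pool.Agent.AntiPath Pool.Agent.TwoCh

variable {n : ℕ} (c : (Fin n → Bool) → (Fin n → Bool) → Bool)

/-- a label of the component of a vertex in the graph of the edges of one colour -/
noncomputable def lab (hc : ∀ u v, c u v = c v u) (a : Bool) :
    V n → Fin (Nat.card (mono c hc a).ConnectedComponent) := fun x =>
  Finite.equivFin (mono c hc a).ConnectedComponent ((mono c hc a).connectedComponentMk x)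

theorem lab_eq (hc : ∀ u v, c u v = c v u) (a : Bool) {x y : V n} :
    lab c hc a x = lab c hc a y ↔ (mono c hc a).Reachable x y := by
  unfold lab
  rw [(Finite.equivFin (mono c hc a).ConnectedComponent).apply_eq_iff_eq]
  exact SimpleGraph.ConnectedComponent.eq

theorem an_flip (x : V n) (i : Fin n) : an (AntiPath.flip x i) = AntiPath.flip (an x) i := by
  funext j
  by_cases h : j = i
  · subst h
    simp [an, AntiPath.flip_same]
  · simp [an, AntiPath.flip_ne _ h]

theorem an_adj {x y : V n} (h : (cube n).Adj x y) : (cube n).Adj (an x) (an y) := by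
  obtain ⟨i, rfl⟩ := h
  exact ⟨i, an_flip x i⟩

theorem upd_adj (x : V n) (i : Fin n) (hi : x i = false) :
    (cube n).Adj x (Function.update x i true) := ⟨i, by rw [AntiPath.flip, hi]; rfl⟩

theorem bool_ne {u a : Bool} (h : u ≠ a) : u = !a := by
  revert h
  cases u <;> cases a <;> simp

/-- the path obtained from a walk whose colours are `a ... a b ... b` -/
theorem path_two {x : V n} (w : (cube n).Walk x (antipode x)) (a b : Bool) (k1 k2 : ℕ)
    (hw : colors c w = List.replicate k1 a ++ List.replicate k2 b) :
    ∃ (k : ℕ) (p : ℕ → (Fin n → Bool)) (j : ℕ), IsPath p k ∧ p k = antipode (p 0) ∧ j ≤ k ∧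
      (k2 = 0 → j = k) ∧ ∀ t, t < k → c (p t) (p (t + 1)) = if t < j then a else b := by
  classical
  have hb : (colors c w.bypass).Sublist (colors c w) := (bypass_darts w).map _
  rw [hw, List.sublist_append_iff] at hb
  obtain ⟨l1, l2, hl, h1, h2⟩ := hb
  rw [List.sublist_replicate_iff] at h1 h2
  obtain ⟨i, hi, rfl⟩ := h1
  obtain ⟨j, hj, rfl⟩ := h2
  have hlen : w.bypass.length = i + j := by
    have := congrArg List.length hl
    rw [colors_eq] at this
    simp only [List.length_map, List.length_range, List.length_append,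
      List.length_replicate] at this
    exact this
  refine ⟨w.bypass.length, w.bypass.getVert, i, ⟨?_, ?_⟩, ?_, by omega, fun h => by omega, ?_⟩
  · intro s t hs ht h
    exact w.bypass_isPath.getVert_injOn hs ht h
  · intro s hs
    obtain ⟨d, hd⟩ := w.bypass.adj_getVert_succ hs
    exact ⟨d, fun e => by rw [hd]; exact flip_diff _ d e⟩
  · rw [w.bypass.getVert_length, w.bypass.getVert_zero]
  · intro t ht
    have h4 : (colors c w.bypass)[t]? = some (c (w.bypass.getVert t) (w.bypass.getVert (t + 1))) := by
      rw [colors_eq, List.getElem?_map, List.getElem?_range ht]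
      rfl
    rw [hl] at h4
    rw [hlen] at ht
    by_cases h5 : t < i
    · rw [List.getElem?_append_left (by simpa using h5), List.getElem?_replicate, if_pos h5] at h4
      simp only [Option.some.injEq] at h4
      rw [← h4, if_pos h5]
    · rw [List.getElem?_append_right (by simpa using h5)] at h4
      simp only [List.length_replicate] at h4
      have h7 : t - i < j := by omega
      rw [List.getElem?_replicate, if_pos h7] at h4
      simp only [Option.some.injEq] at h4
      rw [← h4, if_neg h5]

/-- Norine's conjecture: if antipodal edges have different colours then, for each colour, some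
vertex is joined to its antipode by a path all of whose edges have this colour. -/
theorem norine (hc : ∀ u v, c u v = c v u)
    (h : ∀ u i, c (antipode u) (antipode (AntiPath.flip u i)) ≠ c u (AntiPath.flip u i))
    (a : Bool) :
    ∃ (k : ℕ) (p : ℕ → (Fin n → Bool)), IsPath p k ∧ p k = antipode (p 0) ∧
      ∀ t, t < k → c (p t) (p (t + 1)) = a := by
  obtain ⟨x, hx⟩ := label_norine (lab c hc a) (by
    intro x i hi
    have hadj := upd_adj x i hi
    by_cases h1 : c x (Function.update x i true) = a
    · left
      exact (lab_eq c hc a).2 (SimpleGraph.Adj.reachable (⟨hadj, h1⟩ : (mono c hc a).Adj _ _))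
    · right
      refine (lab_eq c hc a).2 (SimpleGraph.Adj.reachable
        (⟨an_adj hadj, ?_⟩ : (mono c hc a).Adj _ _))
      obtain ⟨j, hj⟩ := hadj
      have h3 := h x j
      rw [← hj] at h3
      have h4 := bool_ne h3
      have h5 := bool_ne h1
      change c (antipode x) (antipode (Function.update x i true)) = a
      rw [h4, h5, Bool.not_not])
  obtain ⟨w⟩ : (mono c hc a).Reachable x (antipode x) := (lab_eq c hc a).1 hx
  obtain ⟨w', k1, h1⟩ := mono_walk c hc w
  obtain ⟨k, p, j, hp, hk, hj, hj', hcol⟩ := path_two c w' a a k1 0 (by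
    rw [h1]; simp)
  refine ⟨k, p, hp, hk, fun t ht => ?_⟩
  rw [hcol t ht, hj' rfl, if_pos ht]

theorem mono_an (hc : ∀ u v, c u v = c v u)
    (h : ∀ u i, c (antipode u) (antipode (AntiPath.flip u i)) = c u (AntiPath.flip u i))
    (a : Bool) {x y : V n} (hxy : (mono c hc a).Reachable x y) :
    (mono c hc a).Reachable (an x) (an y) := by
  obtain ⟨w⟩ := hxy
  induction w with
  | nil => exact SimpleGraph.Reachable.refl _
  | @cons u v z huv _ ih =>
    refine SimpleGraph.Reachable.trans (SimpleGraph.Adj.reachable
      (⟨an_adj huv.1, ?_⟩ : (mono c hc a).Adj _ _)) ih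
    obtain ⟨⟨i, rfl⟩, h1⟩ := huv
    exact (h u i).trans h1

theorem changes_two {p : ℕ → (Fin n → Bool)} {k j : ℕ} {a b : Bool}
    (h : ∀ t, t < k → c (p t) (p (t + 1)) = if t < j then a else b) : changes c p k ≤ 1 := by
  unfold changes
  refine (Finset.card_le_card (t := {j - 1}) ?_).trans (by simp)
  intro t ht
  simp only [mem_filter, mem_range] at ht
  rw [h t (by omega), h (t + 1) (by omega)] at ht
  obtain ⟨h1, h3⟩ := ht
  rw [Finset.mem_singleton]
  by_contra hcon
  apply h3
  by_cases h4 : t < j
  · rw [if_pos h4, if_pos (by omega)]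
  · rw [if_neg h4, if_neg (by omega)]

/-- Centrally symmetric colourings: for each colour `a` some vertex is joined to its antipode by a
path whose colours are `a ... a b ... b`, where `b` is the other colour. -/
theorem symmetric (hc : ∀ u v, c u v = c v u)
    (h : ∀ u i, c (antipode u) (antipode (AntiPath.flip u i)) = c u (AntiPath.flip u i))
    (a : Bool) :
    ∃ (k : ℕ) (p : ℕ → (Fin n → Bool)) (j : ℕ), IsPath p k ∧ p k = antipode (p 0) ∧
      changes c p k ≤ 1 ∧ j ≤ k ∧
      ∀ t, t < k → c (p t) (p (t + 1)) = if t < j then a else !a := by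
  obtain ⟨x, y, hx, hy⟩ := label_symm (lab c hc a) (lab c hc (!a)) (by
    intro x i hi
    have hadj := upd_adj x i hi
    by_cases h1 : c x (Function.update x i true) = a
    · left
      exact (lab_eq c hc a).2 (SimpleGraph.Adj.reachable (⟨hadj, h1⟩ : (mono c hc a).Adj _ _))
    · right
      exact (lab_eq c hc (!a)).2 (SimpleGraph.Adj.reachable
        (⟨hadj, bool_ne h1⟩ : (mono c hc (!a)).Adj _ _)))
    (fun x y hxy => (lab_eq c hc a).2 (mono_an c hc h a ((lab_eq c hc a).1 hxy)))
    (fun x y hxy => (lab_eq c hc (!a)).2 (mono_an c hc h (!a) ((lab_eq c hc (!a)).1 hxy)))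
  obtain ⟨w1⟩ := (lab_eq c hc a).1 hx
  obtain ⟨w2⟩ : (mono c hc (!a)).Reachable y (antipode x) := (lab_eq c hc (!a)).1 hy
  obtain ⟨w1', k1, h1⟩ := mono_walk c hc w1
  obtain ⟨w2', k2, h2⟩ := mono_walk c hc w2
  obtain ⟨k, p, j, hp, hk, hj, -, hcol⟩ := path_two c (w1'.append w2') a (!a) k1 k2 (by
    rw [colors_append, h1, h2])
  exact ⟨k, p, j, hp, hk, changes_two c hcol, hj, hcol⟩

end Pool.Agent.Nor
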